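import Mathlib
import Pool.Agent.TH984.GE.Ineq
import Pool.Agent.TH984.GE.Final

/-!
# The unbalanced Rogers-Shephard inequality

`vol (a K - b K) ≤ (∑ i, C(n,i)^2 a^i b^(n-i)) vol K` for every convex body `K` in `ℝⁿ` and all
`a, b ≥ 0`. The mixed volumes of `K` and `-K` are bounded one by one by the theorem of the
starting tree (Godbersen's conjecture); the volume polynomial of a simplex is bounded below
by `Pool.Agent.TH984.GBS.t_SIMPLEX`.
-/

set_option autoImplicit false

open MeasureTheory Set Multiset Module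
open scoped Pointwise NNReal

namespace Pool.Agent.K3h76.URS

open Pool.Agent.TH650.MV Pool.Agent.TH984.PL

/-- the volume polynomial of `a K - b K` with the mixed volumes as coefficients -/
theorem poly {n : ℕ} {K : Set (EuclideanSpace ℝ (Fin n))}
    (hK : IsCompact K) (hc : Convex ℝ K) (hi : (interior K).Nonempty) :
    ∃ W : ℕ → ℝ, ∀ a b : ℝ, 0 ≤ a → 0 ≤ b → (volume (a • K + b • (-K))).toReal =
      ∑ i ∈ Finset.range (n + 1), (n.choose i : ℝ) * W i * a ^ i * b ^ (n - i) := by
  let B : ConvexBody (EuclideanSpace ℝ (Fin n)) := ⟨K, hc, hK, hi.mono interior_subset⟩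
  have hBK : (B : Set (EuclideanSpace ℝ (Fin n))) = K := rfl
  have hfin : finrank ℝ (EuclideanSpace ℝ (Fin n)) = n := by simp
  refine ⟨fun i => V volume (replicate i B + replicate (n - i) ((-1 : ℝ) • B)), ?_⟩
  intro a b ha hb
  lift a to ℝ≥0 using ha
  lift b to ℝ≥0 using hb
  have h1 := Pool.Agent.TH984.GE12.vl_two (volume : Measure (EuclideanSpace ℝ (Fin n)))
    B ((-1 : ℝ) • B) a b
  rw [hfin] at h1
  refine Eq.trans ?_ h1
  unfold vl
  have hneg : (-1 : ℝ) • K = -K := by
    ext x
    constructor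
    · rintro ⟨y, hy, rfl⟩
      simpa using hy
    · intro hx
      exact ⟨-x, hx, by simp⟩
  rw [ConvexBody.coe_add, ConvexBody.coe_smul', ConvexBody.coe_smul', ConvexBody.coe_smul, hBK,
    hneg]
  rfl

/-- the upper bound for all convex bodies -/
theorem upper {n : ℕ} {K : Set (EuclideanSpace ℝ (Fin n))}
    (hK : IsCompact K) (hc : Convex ℝ K) (hi : (interior K).Nonempty) {a b : ℝ}
    (ha : 0 ≤ a) (hb : 0 ≤ b) :
    volume (a • K - b • K) ≤
      ENNReal.ofReal (∑ i ∈ Finset.range (n + 1), (n.choose i : ℝ) ^ 2 * a ^ i * b ^ (n - i)) *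
        volume K := by
  obtain ⟨W, hW⟩ := poly hK hc hi
  have hup : ∀ j ≤ n, W j ≤ (n.choose j : ℝ) * (volume K).toReal := fun j hj =>
    (Pool.Agent.TH984.GE12.ineq n K hK hc hi W hW j hj).1
  have hset : a • K - b • K = a • K + b • (-K) := by
    rw [sub_eq_add_neg, smul_set_neg]
  have hKf : volume K ≠ ⊤ := hK.measure_lt_top.ne
  have hcomp : IsCompact (a • K + b • (-K)) := (hK.smul a).add (hK.neg.smul b)
  have hfin : volume (a • K + b • (-K)) ≠ ⊤ := hcomp.measure_lt_top.ne
  rw [hset, ← ENNReal.ofReal_toReal hfin, ← ENNReal.ofReal_toReal hKf,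
    ← ENNReal.ofReal_mul (Finset.sum_nonneg fun i _ => by positivity), hW a b ha hb]
  apply ENNReal.ofReal_le_ofReal
  rw [Finset.sum_mul]
  refine Finset.sum_le_sum fun i hi' => ?_
  have h1 := hup i (by simpa [Nat.lt_succ_iff] using hi')
  calc (n.choose i : ℝ) * W i * a ^ i * b ^ (n - i)
      = W i * ((n.choose i : ℝ) * a ^ i * b ^ (n - i)) := by ring
    _ ≤ ((n.choose i : ℝ) * (volume K).toReal) * ((n.choose i : ℝ) * a ^ i * b ^ (n - i)) :=
        mul_le_mul_of_nonneg_right h1 (by positivity)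
    _ = _ := by ring

/-- the unbalanced Rogers-Shephard inequality -/
theorem main {n : ℕ} {K : Set (EuclideanSpace ℝ (Fin n))}
    (hK : IsCompact K) (hc : Convex ℝ K) (hi : (interior K).Nonempty)
    {v : Fin (n + 1) → EuclideanSpace ℝ (Fin n)} (hv : AffineIndependent ℝ v)
    (hvol : volume (convexHull ℝ (Set.range v)) = volume K) {a b : ℝ}
    (ha : 0 ≤ a) (hb : 0 ≤ b) :
    volume (a • K - b • K) / volume K ≤
      volume (a • convexHull ℝ (Set.range v) - b • convexHull ℝ (Set.range v)) /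
        volume (convexHull ℝ (Set.range v)) := by
  have h1 := upper hK hc hi ha hb
  have h2 := Pool.Agent.TH984.GBS.t_SIMPLEX n v hv a b ha hb
  rw [hvol] at h2 ⊢
  exact ENNReal.div_le_div_right (h1.trans h2) _

end Pool.Agent.K3h76.URS
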